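import Pool.Agent.N557.CV.Stm

/-!
# Project CV, UB: upper bound for the convolution with `Σ δ_{a^i b^j}` (helper744)
-/

set_option autoImplicit false

namespace Pool.Agent.N744.CV

open Pool.Agent.N557.CV
open scoped ENNReal

/-- a sum with at most one nonzero term -/
lemma sum_rpow_one {ι : Type*} (s : Finset ι) (f : ι → ℝ≥0∞) {p : ℝ} (hp : 0 < p)
    (h : ∀ i ∈ s, ∀ j ∈ s, i ≠ j → f i = 0 ∨ f j = 0) :
    (∑ i ∈ s, f i) ^ p = ∑ i ∈ s, f i ^ p := by
  classical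
  by_cases h0 : ∀ i ∈ s, f i = 0
  · rw [Finset.sum_eq_zero h0, ENNReal.zero_rpow_of_pos hp]
    symm
    refine Finset.sum_eq_zero fun i hi => ?_
    rw [h0 i hi, ENNReal.zero_rpow_of_pos hp]
  · push Not at h0
    obtain ⟨i, hi, hfi⟩ := h0
    have h1 : ∀ j ∈ s, j ≠ i → f j = 0 := fun j hj hji => (h j hj i hi hji).resolve_right hfi
    rw [Finset.sum_eq_single_of_mem i hi h1, Finset.sum_eq_single_of_mem i hi]
    intro j hj hji
    rw [h1 j hj hji, ENNReal.zero_rpow_of_pos hp]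

/-- a sum of equal terms, at most one of which is present -/
lemma sum_ite_le {ι : Type*} (s : Finset ι) (Q : ι → Prop) [DecidablePred Q] (c : ℝ≥0∞)
    (h : ∀ i ∈ s, ∀ j ∈ s, Q i → Q j → i = j) :
    ∑ i ∈ s, (if Q i then c else 0) ≤ c := by
  classical
  rw [← Finset.sum_filter, Finset.sum_const]
  have h1 : (s.filter Q).card ≤ 1 := by
    rw [Finset.card_le_one]
    intro i hi j hj
    rw [Finset.mem_filter] at hi hj
    exact h i hi.1 j hj.1 hi.2 hj.2
  calc (s.filter Q).card • c ≤ 1 • c := nsmul_le_nsmul_left (zero_le) h1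
    _ = c := one_nsmul c

lemma tsum_shift {G : Type*} [Group G] (g : G) (f : G → ℝ≥0∞) :
    ∑' x, f (g⁻¹ * x) = ∑' x, f x := (Equiv.mulLeft g⁻¹).tsum_eq f

lemma nat_rpow (m : ℕ) {p : ℝ} (hp : 1 < p) :
    (m : ℝ≥0∞) ^ (p - 1) * (m : ℝ≥0∞) = (m : ℝ≥0∞) ^ p := by
  rcases Nat.eq_zero_or_pos m with rfl | hm
  · simp [ENNReal.zero_rpow_of_pos (show 0 < p by linarith)]
  · have h0 : (m : ℝ≥0∞) ≠ 0 := by exact_mod_cast hm.ne'
    have h1 : (m : ℝ≥0∞) ≠ ⊤ := ENNReal.natCast_ne_top m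
    calc (m : ℝ≥0∞) ^ (p - 1) * (m : ℝ≥0∞) = (m : ℝ≥0∞) ^ (p - 1) * (m : ℝ≥0∞) ^ (1 : ℝ) := by
          rw [ENNReal.rpow_one]
      _ = (m : ℝ≥0∞) ^ (p - 1 + 1) := (ENNReal.rpow_add _ _ h0 h1).symm
      _ = (m : ℝ≥0∞) ^ p := by rw [sub_add_cancel]

theorem t_ub : S_UB := by
  classical
  intro G _ a b P hP p hp n m ξ
  have hp0 : 0 < p := by linarith
  have hp1 : 1 ≤ p := hp.le
  set Z : G → ℝ≥0∞ := fun z => ∑ j ∈ Finset.range m, ξ ((b ^ j)⁻¹ * z) with hZ
  set ζ : G → ℝ≥0∞ := fun z => if P z then Z z else 0 with hζ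
  set η : G → ℝ≥0∞ := fun z => if P z then 0 else Z z with hη
  have hsplit : ∀ z, Z z = ζ z + η z := by
    intro z
    simp only [hζ, hη]
    split_ifs <;> simp
  have hS : ∀ x, (∑ i ∈ Finset.range n, ∑ j ∈ Finset.range m,
      ξ ((b ^ j)⁻¹ * ((a ^ i)⁻¹ * x))) =
      (∑ i ∈ Finset.range n, ζ ((a ^ i)⁻¹ * x)) + ∑ i ∈ Finset.range n, η ((a ^ i)⁻¹ * x) := by
    intro x
    rw [← Finset.sum_add_distrib]
    refine Finset.sum_congr rfl fun i _ => ?_
    exact hsplit _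
  set X : ℝ≥0∞ := ∑' x, ξ x ^ p with hX
  -- the sum of the powers of `Z`
  have hZp : ∑' z, Z z ^ p ≤ (m : ℝ≥0∞) ^ p * X := by
    calc ∑' z, Z z ^ p ≤ ∑' z, (m : ℝ≥0∞) ^ (p - 1) *
          ∑ j ∈ Finset.range m, ξ ((b ^ j)⁻¹ * z) ^ p := by
          refine ENNReal.tsum_le_tsum fun z => ?_
          have := ENNReal.rpow_sum_le_const_mul_sum_rpow (Finset.range m)
            (fun j => ξ ((b ^ j)⁻¹ * z)) hp1
          rwa [Finset.card_range] at this
      _ = (m : ℝ≥0∞) ^ (p - 1) * ∑ j ∈ Finset.range m, ∑' z, ξ ((b ^ j)⁻¹ * z) ^ p := by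
          rw [ENNReal.tsum_mul_left, Summable.tsum_finsetSum (fun _ _ => ENNReal.summable)]
      _ = (m : ℝ≥0∞) ^ (p - 1) * ∑ j ∈ Finset.range m, X := by
          congr 1
          refine Finset.sum_congr rfl fun j _ => ?_
          exact tsum_shift (b ^ j) (fun z => ξ z ^ p)
      _ = (m : ℝ≥0∞) ^ p * X := by
          rw [Finset.sum_const, Finset.card_range, nsmul_eq_mul, ← mul_assoc, nat_rpow m hp]
  -- the sum of the powers of `ζ`
  have hζp : ∑' z, ζ z ^ p ≤ (m : ℝ≥0∞) ^ (p - 1) * X := by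
    calc ∑' z, ζ z ^ p ≤ ∑' z, (m : ℝ≥0∞) ^ (p - 1) *
          ∑ j ∈ Finset.range m, (if P z then ξ ((b ^ j)⁻¹ * z) ^ p else 0) := by
          refine ENNReal.tsum_le_tsum fun z => ?_
          simp only [hζ]
          by_cases hz : P z
          · simp only [hz, if_true]
            have := ENNReal.rpow_sum_le_const_mul_sum_rpow (Finset.range m)
              (fun j => ξ ((b ^ j)⁻¹ * z)) hp1
            rwa [Finset.card_range] at this
          · simp only [hz, if_false]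
            rw [ENNReal.zero_rpow_of_pos hp0]
            exact zero_le
      _ = (m : ℝ≥0∞) ^ (p - 1) * ∑ j ∈ Finset.range m,
            ∑' z, (if P z then ξ ((b ^ j)⁻¹ * z) ^ p else 0) := by
          rw [ENNReal.tsum_mul_left, Summable.tsum_finsetSum (fun _ _ => ENNReal.summable)]
      _ = (m : ℝ≥0∞) ^ (p - 1) * ∑ j ∈ Finset.range m,
            ∑' y, (if P (b ^ j * y) then ξ y ^ p else 0) := by
          congr 1
          refine Finset.sum_congr rfl fun j _ => ?_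
          have := tsum_shift (b ^ j) (fun y => if P (b ^ j * y) then ξ y ^ p else 0)
          rw [← this]
          refine tsum_congr fun z => ?_
          rw [mul_inv_cancel_left]
      _ = (m : ℝ≥0∞) ^ (p - 1) * ∑' y, ∑ j ∈ Finset.range m,
            (if P (b ^ j * y) then ξ y ^ p else 0) := by
          rw [Summable.tsum_finsetSum (fun _ _ => ENNReal.summable)]
      _ ≤ (m : ℝ≥0∞) ^ (p - 1) * X := by
          refine mul_le_mul_right (ENNReal.tsum_le_tsum fun y => ?_) _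
          refine sum_ite_le _ _ _ fun j _ j' _ hj hj' => ?_
          by_contra hne
          have h1 : b ^ j' * y = b ^ ((j' : ℤ) - (j : ℤ)) * (b ^ j * y) := by
            rw [← mul_assoc, ← zpow_natCast b j, ← zpow_add, sub_add_cancel, zpow_natCast]
          have h2 := hP.2 ((j' : ℤ) - (j : ℤ)) (b ^ j * y) (by omega) hj
          rw [← h1] at h2
          exact h2 hj'
  -- the two parts
  have hA : ∑' x, (∑ i ∈ Finset.range n, ζ ((a ^ i)⁻¹ * x)) ^ p ≤
      (n : ℝ≥0∞) ^ p * ((m : ℝ≥0∞) ^ (p - 1) * X) := by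
    calc ∑' x, (∑ i ∈ Finset.range n, ζ ((a ^ i)⁻¹ * x)) ^ p
        ≤ ∑' x, (n : ℝ≥0∞) ^ (p - 1) * ∑ i ∈ Finset.range n, ζ ((a ^ i)⁻¹ * x) ^ p := by
          refine ENNReal.tsum_le_tsum fun x => ?_
          have := ENNReal.rpow_sum_le_const_mul_sum_rpow (Finset.range n)
            (fun i => ζ ((a ^ i)⁻¹ * x)) hp1
          rwa [Finset.card_range] at this
      _ = (n : ℝ≥0∞) ^ (p - 1) * ∑ i ∈ Finset.range n, ∑' x, ζ ((a ^ i)⁻¹ * x) ^ p := by
          rw [ENNReal.tsum_mul_left, Summable.tsum_finsetSum (fun _ _ => ENNReal.summable)]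
      _ = (n : ℝ≥0∞) ^ (p - 1) * ∑ i ∈ Finset.range n, ∑' z, ζ z ^ p := by
          congr 1
          refine Finset.sum_congr rfl fun i _ => ?_
          exact tsum_shift (a ^ i) (fun z => ζ z ^ p)
      _ = (n : ℝ≥0∞) ^ p * ∑' z, ζ z ^ p := by
          rw [Finset.sum_const, Finset.card_range, nsmul_eq_mul, ← mul_assoc, nat_rpow n hp]
      _ ≤ (n : ℝ≥0∞) ^ p * ((m : ℝ≥0∞) ^ (p - 1) * X) := mul_le_mul_right hζp _
  have hB : ∑' x, (∑ i ∈ Finset.range n, η ((a ^ i)⁻¹ * x)) ^ p ≤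
      (n : ℝ≥0∞) * ((m : ℝ≥0∞) ^ p * X) := by
    calc ∑' x, (∑ i ∈ Finset.range n, η ((a ^ i)⁻¹ * x)) ^ p
        = ∑' x, ∑ i ∈ Finset.range n, η ((a ^ i)⁻¹ * x) ^ p := by
          refine tsum_congr fun x => ?_
          refine sum_rpow_one _ _ hp0 fun i _ i' _ hne => ?_
          by_contra hcon
          push Not at hcon
          obtain ⟨h1, h2⟩ := hcon
          have h3 : ¬ P ((a ^ i)⁻¹ * x) := by
            intro h
            apply h1
            simp only [hη, h, if_true]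
          have h4 : ¬ P ((a ^ i')⁻¹ * x) := by
            intro h
            apply h2
            simp only [hη, h, if_true]
          have h5 : (a ^ i')⁻¹ * x = a ^ ((i : ℤ) - (i' : ℤ)) * ((a ^ i)⁻¹ * x) := by
            rw [← mul_assoc, ← zpow_natCast a i, ← zpow_natCast a i', ← zpow_neg, ← zpow_neg,
              ← zpow_add]
            congr 2
            ring
          have h6 := hP.1 ((i : ℤ) - (i' : ℤ)) ((a ^ i)⁻¹ * x) (by omega) h3
          rw [← h5] at h6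
          exact h4 h6
      _ = ∑ i ∈ Finset.range n, ∑' x, η ((a ^ i)⁻¹ * x) ^ p := by
          rw [Summable.tsum_finsetSum (fun _ _ => ENNReal.summable)]
      _ = ∑ i ∈ Finset.range n, ∑' z, η z ^ p := by
          refine Finset.sum_congr rfl fun i _ => ?_
          exact tsum_shift (a ^ i) (fun z => η z ^ p)
      _ = (n : ℝ≥0∞) * ∑' z, η z ^ p := by
          rw [Finset.sum_const, Finset.card_range, nsmul_eq_mul]
      _ ≤ (n : ℝ≥0∞) * ((m : ℝ≥0∞) ^ p * X) := by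
          refine mul_le_mul_right (le_trans (ENNReal.tsum_le_tsum fun z => ?_) hZp) _
          refine ENNReal.rpow_le_rpow ?_ hp0.le
          rw [hsplit z]
          exact le_add_self
  calc ∑' x, (∑ i ∈ Finset.range n, ∑ j ∈ Finset.range m, ξ ((b ^ j)⁻¹ * ((a ^ i)⁻¹ * x))) ^ p
      ≤ ∑' x, 2 ^ (p - 1) * ((∑ i ∈ Finset.range n, ζ ((a ^ i)⁻¹ * x)) ^ p +
          (∑ i ∈ Finset.range n, η ((a ^ i)⁻¹ * x)) ^ p) := by
        refine ENNReal.tsum_le_tsum fun x => ?_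
        rw [hS x]
        exact ENNReal.rpow_add_le_mul_rpow_add_rpow _ _ hp1
    _ = 2 ^ (p - 1) * ((∑' x, (∑ i ∈ Finset.range n, ζ ((a ^ i)⁻¹ * x)) ^ p) +
          ∑' x, (∑ i ∈ Finset.range n, η ((a ^ i)⁻¹ * x)) ^ p) := by
        rw [ENNReal.tsum_mul_left, ENNReal.tsum_add]
    _ ≤ 2 ^ (p - 1) * ((n : ℝ≥0∞) ^ p * ((m : ℝ≥0∞) ^ (p - 1) * X) +
          (n : ℝ≥0∞) * ((m : ℝ≥0∞) ^ p * X)) := by
        exact mul_le_mul_right (add_le_add hA hB) _
    _ = 2 ^ (p - 1) * ((n : ℝ≥0∞) * (m : ℝ≥0∞) ^ p + (n : ℝ≥0∞) ^ p * (m : ℝ≥0∞) ^ (p - 1)) *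
        X := by ring

end Pool.Agent.N744.CV
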